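import Pool.Agent.R922.DOM.Asym
import Pool.Agent.R922.DOM.GR

/-!
MP_9be8d1_co, Q1.  The conjecture `f_r(s) = C(s+r,r) - C(s+r,r,r-1)` for all `r` for which the
covering number meets a new general upper bound; in particular for all Steiner systems (the whole
second sentence of Q1) and for `r = 3` and all `s`; and asymptotically for every fixed `r`.
-/

namespace Pool.Agent.Results.MP_9be8d1_co.SteinerAndTriples

open Finset R922.DOMP

theorem result :
    -- (1) general upper bound `f_r(s) ≤ f_2(s) C(s+r,r) / C(s+2,2)`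
    (∀ r s n : ℕ, 2 ≤ r → 1 ≤ s → ∀ H : Finset (Finset (Fin n)), Uniform r H → PhiLe H s →
      (s + 1) * (s + 2) * H.card ≤ 2 * (s * (s + 2) / 2) * (s + r).choose r) ∧
    -- (2) Steiner systems: the exact value, attained by both descriptions of Q1
    (∀ r s : ℕ, 2 ≤ r → 1 ≤ s → (∃ C : Finset (Finset (Fin (s + r))), IsSteiner (s + r) r C) →
      r ∣ (s + r).choose (r - 1) ∧
      IsCovNum (s + r) r ((s + r).choose (r - 1) / r) ∧
      IsF r s ((s + r).choose r - (s + r).choose (r - 1) / r) ∧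
      (s + r).choose r - (s + r).choose (r - 1) / r =
        max ((s + r - 1).choose r) ((s + r).choose r - (s + r).choose (r - 1) / r)) ∧
    -- (3) `r = 3`, all `s`
    (∀ s : ℕ, 1 ≤ s → ∃ k : ℕ, k = ((s + 3) * ((s + 3) / 2) + 2) / 3 ∧ IsCovNum (s + 3) 3 k ∧
      IsF 3 s ((s + 3).choose 3 - k) ∧
      (s + 3).choose 3 - k = max ((s + 3 - 1).choose 3) ((s + 3).choose 3 - k)) ∧
    -- (4) all `r`, `s` for which the covering number meets the bound of (1)
    (∀ r s k : ℕ, 2 ≤ r → 1 ≤ s → IsCovNum (s + r) r k →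
      2 * (s * (s + 2) / 2) * (s + r).choose r <
        (s + 1) * (s + 2) * ((s + r).choose r - k + 1) →
      IsF r s ((s + r).choose r - k) ∧
      (s + r).choose r - k = max ((s + r - 1).choose r) ((s + r).choose r - k)) ∧
    -- (5) every fixed `r`, asymptotically in `s`: `C(s+r,r) - f_r(s)` is `(1+o(1))` times the
    -- covering number, and `(1+o(1))` times `C(s+r,r-1)/r`
    (∀ r : ℕ, 2 ≤ r → ∀ ε : ℝ, 0 < ε → ∃ s0 : ℕ, ∀ s : ℕ, s0 ≤ s → 1 ≤ s →
      ∃ m k : ℕ, IsF r s m ∧ IsCovNum (s + r) r k ∧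
      (r : ℝ) * ((s + r).choose r - m) ≤ (1 + ε) * (s + r).choose (r - 1) ∧
      ((s + r).choose (r - 1) : ℝ) ≤ r * ((s + r).choose r - m) ∧
      ((s + r).choose r : ℝ) - m ≤ k ∧
      (k : ℝ) ≤ (1 + ε) * ((s + r).choose r - m)) := by
  refine ⟨?_, ?_, ?_, ?_, ?_⟩
  · intro r s n hr hs H hU hP
    exact bound_gen R922.DOM.gr_proof hr hs H hU hP
  · rintro r s hr hs ⟨C, hC⟩
    exact steiner_exact R922.DOM.gr_proof hr hs C hC
  · intro s hs
    obtain ⟨h1, h2, h3⟩ := three_exact R922.DOM.gr_proof hs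
    exact ⟨_, rfl, h1, h2, h3⟩
  · rintro r s k hr hs ⟨⟨C, hC, rfl⟩, hmin⟩ hub
    obtain ⟨_, h2, h3⟩ := exact_of R922.DOM.gr_proof hr hs C hC hub
    exact ⟨h2, h3⟩
  · intro r hr ε hε
    exact asym R128.IT.Nibble_proof R922.DOM.gr_proof r hr ε hε

end Pool.Agent.Results.MP_9be8d1_co.SteinerAndTriples
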